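import Pool.Agent.H90.RG.Stmt
import Pool.Agent.H90.RG.AllN

/-!
# Hessian bound for stationary harmonic maps (`MP_2697e3_an`)
-/

set_option autoImplicit false

open MeasureTheory Metric Set
open scoped ContDiff

namespace Pool.Agent.Results.MP_2697e3_an.AllStationaryMaps

open Pool.Agent.H87.SN Pool.Agent.H14.RG Pool.Agent.H90.RG

/-- Let `N` be a closed submanifold of `R^m` of dimension `k`, and let `n ≥ 1`. Then `N` has a second
fundamental form, and for every real number `C` there is `δ > 0` such that for every stationary harmonic
map `u` of the ball `B_2` of `R^n` into `N` (with respect to any second fundamental form `A` of `N`)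
with energy at most `C`: the second derivatives of `u` on `B_1`, in the sense of distributions, are
integrable functions, and their `L^1` norm is at most `δ`. -/
theorem result (n k m : ℕ) (hn : 1 ≤ n) (N : Set (E m)) (hN : IsClosedSubmanifold k N) :
    (∃ A : E m → Bil m, IsSecond N A) ∧
    ∀ C : ℝ, ∃ δ : ℝ, 0 < δ ∧ ∀ (A : E m → Bil m) (u : E n → E m) (G : E n → Lin n m),
      IsSecond N A → StatHarm N A u G → energy G ≤ C →
      ∃ H, IsHessian u H ∧ hessL1 H ≤ ENNReal.ofReal δ :=
  res n k m hn N hN

end Pool.Agent.Results.MP_2697e3_an.AllStationaryMaps
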